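import Mathlib
import Pool.Agent.Y703.CT.Defs
import Pool.Agent.Y699.E.Hal2

/-!
# Project CX (helper703): the exact proportion of the good `D` over `ℚ`

`D` runs over the squarefree numbers prime to `3`, not `±1` modulo `9`, with exactly one prime factor
`≡ 2` modulo `3`. The proportion of those with `NoSplit D` tends to `∏_{i ≥ 1} (1 - 3^{-i})`.
Statements of the parts.
-/

set_option autoImplicit false
set_option linter.unusedVariables false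

open scoped Classical

namespace Pool.Agent.Y703.CX

open Finset
open Pool.Agent.Y692.QS (Ei w nr toC)
open Pool.Agent.Y715.T.Rec (cs)
open Pool.Agent.Y715.T.RecG (Pq)
open Pool.Agent.Y699.E (ez PS nrm lg xab)
open Pool.Agent.Y703.CT (Cls NoSplit)

/-- a primary prime of norm `p` -/
noncomputable def pp (p : ℕ) : Ei := if h : ∃ π : Ei, Pq π ∧ nr π = p then h.choose else 1

/-- the cubic logarithm of `n` modulo a prime `p ≡ 1` modulo `3` -/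
noncomputable def lam (p n : ℕ) : ZMod 3 := cs (pp p) (n : Ei)

/-- the solutions of the linear system attached to a set of primes -/
def Sol (S : Finset ℕ) (c : ℕ → ZMod 3) : Prop :=
  ∀ p ∈ S, p % 3 = 1 → ∑ q ∈ S, (c q - c p) * lam p q = 0

/-- the good sets: all solutions are constant -/
def Gd (S : Finset ℕ) : Prop := ∀ c, Sol S c → ∀ p ∈ S, ∀ q ∈ S, c p = c q

/-- the class of the sets of primes -/
def Cl (S : Finset ℕ) : Prop :=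
  (∀ p ∈ S, p.Prime ∧ p ≠ 3) ∧ (S.filter fun p => p % 3 = 2).card = 1 ∧
    (∏ p ∈ S, p) % 9 ≠ 1 ∧ (∏ p ∈ S, p) % 9 ≠ 8

/-- the sets of the class with product at most `X` -/
noncomputable def SS (X : ℕ) : Finset (Finset ℕ) :=
  (range (X + 1)).powerset.filter fun S => Cl S ∧ ∏ p ∈ S, p ≤ X

/-- the limit `(1 - 1/3) (1 - 1/9) (1 - 1/27) ⋯` -/
noncomputable def c3 : ℝ := ∏' i : ℕ, (1 - (1 / 3 : ℝ) ^ (i + 1))

/-- FINAL: the proportion of the good sets -/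
def S_DQ : Prop := Filter.Tendsto
  (fun X : ℕ => (((SS X).filter Gd).card : ℝ) / ((SS X).card : ℝ)) Filter.atTop (nhds c3)

/-- FINAL, in terms of the numbers `D`. -/
def S_DEN : Prop := Filter.Tendsto
  (fun X : ℕ => (((Icc 1 X).filter fun D => Squarefree D ∧ Cls D ∧ NoSplit D).card : ℝ) /
    (((Icc 1 X).filter fun D => Squarefree D ∧ Cls D).card : ℝ)) Filter.atTop (nhds c3)

/-- CX-NS: the translation. -/
def S_NS : Prop := S_DQ → S_DEN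

/-- CX-LAM: the properties of the logarithm. -/
structure LamP : Prop where
  ex : ∀ p : ℕ, p.Prime → p % 3 = 1 → Pq (pp p) ∧ nr (pp p) = p
  mul : ∀ p m n : ℕ, p.Prime → p % 3 = 1 → ¬ p ∣ m → ¬ p ∣ n → lam p (m * n) = lam p m + lam p n
  cube : ∀ p n : ℕ, p.Prime → p % 3 = 1 → ¬ p ∣ n →
    (lam p n = 0 ↔ ∃ x : ℤ, (p : ℤ) ∣ (n : ℤ) - x ^ 3)
  /-- the symbols of two primes `≡ 1` in terms of the two symbols of their primary factors -/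
  rec1 : ∀ p q : ℕ, p.Prime → p % 3 = 1 → q.Prime → q % 3 = 1 → p ≠ q →
    lam p q = cs (pp p) (pp q) + cs (pp p) (star (pp q)) ∧
    lam q p = cs (pp p) (pp q) - cs (pp p) (star (pp q)) ∧
    cs (star (pp p)) (pp q) = - cs (pp p) (star (pp q)) ∧
    cs (pp q) (pp p) = cs (pp p) (pp q) ∧
    cs (star (pp q)) (pp p) = cs (pp p) (star (pp q))
  /-- a prime `≡ 1` and a prime `≡ 2` -/
  rec2 : ∀ p q : ℕ, p.Prime → p % 3 = 1 → q.Prime → q % 3 = 2 →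
    Pq (-(q : Ei)) ∧ lam p q = cs (-(q : Ei)) (pp p)

/-- CX-BIL1: bilinear sums, two primes `≡ 1`. -/
def S_BIL1 : Prop := LamP → ∃ C : ℝ, 1 ≤ C ∧ ∀ (P Q : Finset ℕ) (A B z : ℕ) (c d : ℕ → ℂ) (a b : ZMod 3),
  (∀ p ∈ P, p.Prime ∧ p % 3 = 1 ∧ p ≤ A) → (∀ q ∈ Q, q.Prime ∧ q % 3 = 1 ∧ q ≤ B) →
  Disjoint P Q → (a ≠ 0 ∨ b ≠ 0) → 1 ≤ z → z ≤ A → z ≤ B →
  (∀ p, ‖c p‖ ≤ 1) → (∀ q, ‖d q‖ ≤ 1) →
  ‖∑ p ∈ P, ∑ q ∈ Q, c p * d q * ez (a * lam p q + b * lam q p)‖ ^ 12 * z ≤ C * ((A : ℝ) * B) ^ 12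

/-- CX-BIL2: bilinear sums, a prime `≡ 1` and a prime `≡ 2`. -/
def S_BIL2 : Prop := LamP → ∃ C : ℝ, 1 ≤ C ∧ ∀ (P Q : Finset ℕ) (A B z : ℕ) (c d : ℕ → ℂ) (a : ZMod 3),
  (∀ p ∈ P, p.Prime ∧ p % 3 = 1 ∧ p ≤ A) → (∀ q ∈ Q, q.Prime ∧ q % 3 = 2 ∧ q ≤ B) →
  a ≠ 0 → 1 ≤ z → z ≤ A → z ≤ B → (∀ p, ‖c p‖ ≤ 1) → (∀ q, ‖d q‖ ≤ 1) →
  ‖∑ p ∈ P, ∑ q ∈ Q, c p * d q * ez (a * lam p q)‖ ^ 12 * z ≤ C * ((A : ℝ) * B) ^ 12

/-- the ordered pairs with first entry in `J₁` -/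
noncomputable def prs {ι : Type} [Fintype ι] (J1 : Finset ι) : Finset (ι × ι) :=
  univ.filter fun e => e.1 ∈ J1 ∧ e.2 ≠ e.1

/-- the bilinear hypothesis for a box -/
def HB {ι : Type} (J1 : Finset ι) (C : ι → Finset ℕ) (X : ι → ℕ) (κ : ℝ) : Prop :=
  ∀ i l : ι, i ≠ l → ∀ (a b : ZMod 3) (c d : ℕ → ℂ), (a ≠ 0 ∨ b ≠ 0) → (i ∉ J1 → a = 0) →
    (l ∉ J1 → b = 0) → (∀ p, ‖c p‖ ≤ 1) → (∀ q, ‖d q‖ ≤ 1) →
    ‖∑ x ∈ C i, ∑ y ∈ C l, c x * d y * ez (a * lam x y + b * lam y x)‖ ≤ κ * (X i * X l)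

/-- CX-EQ: equidistribution of the symbols of a tuple. -/
def S_EQ : Prop := ∀ (ι : Type) [Fintype ι] (J1 : Finset ι) (C : ι → Finset ℕ)
  (X : ι → ℕ) (κ : ℝ), 0 ≤ κ → (∀ i, (C i).card ≤ X i) → HB J1 C X κ →
  ∀ Q : (prs J1 → ZMod 3) → Prop,
    |(((Fintype.piFinset C).filter fun p => Q fun e => lam (p e.1.1) (p e.1.2)).card : ℝ) -
      ((univ.filter Q).card : ℝ) / 3 ^ (prs J1).card * ∏ j, ((C j).card : ℝ)| ≤
    3 ^ (prs J1).card * (κ * ∏ j, (X j : ℝ))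

/-- the extension by zero -/
noncomputable def ext {ι : Type} [Fintype ι] {J1 : Finset ι} (α : prs J1 → ZMod 3) (k l : ι) :
    ZMod 3 := if h : (k, l) ∈ prs J1 then α ⟨(k, l), h⟩ else 0

/-- all solutions of the block system are constant -/
def GdA {U J : Type} [Fintype U] [Fintype J] (U1 : Finset U) (J1 : Finset J)
    (A : U → U → ZMod 3) (B : U → J → ZMod 3) (C : J → U → ZMod 3) (R : J → J → ZMod 3) : Prop :=
  ∀ (c : U → ZMod 3) (d : J → ZMod 3),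
    (∀ u ∈ U1, ∑ v, (c v - c u) * A u v + ∑ l, (d l - c u) * B u l = 0) →
    (∀ k ∈ J1, ∑ u, (c u - d k) * C k u + ∑ l, (d l - d k) * R k l = 0) →
    ∃ t : ZMod 3, (∀ u, c u = t) ∧ ∀ l, d l = t

/-- CX-LA: the probability that a random completion is good. -/
def S_LA : Prop := ∀ (U J : Type) [Fintype U] [Fintype J] (U1 : Finset U)
  (J1 : Finset J) (ks : J), Fintype.card U + Fintype.card J = U1.card + J1.card + 1 →
  (∀ l, l ∉ J1 → l = ks) → ∀ (A : U → U → ZMod 3) (B : U → J → ZMod 3) (C : J → U → ZMod 3),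
  (∀ v : U → ZMod 3, (∃ u ∈ U1, v u ≠ 0) → ∃ l, l ≠ ks ∧ ∑ u ∈ U1, v u * B u l ≠ 0) →
  (∀ w : U → ZMod 3, (∃ u, w u ≠ 0) → ∃ k ∈ J1, ∑ u, w u * C k u ≠ 0) →
  |((univ.filter fun α : prs J1 → ZMod 3 => GdA U1 J1 A B C (ext α)).card : ℝ) /
      3 ^ (prs J1).card - c3| ≤ 2 * (3 ^ Fintype.card U / 3 ^ J1.card)

/-- the labels of the large primes with respect to the small ones are not degenerate -/
def Nd (S₀ S₁ : Finset ℕ) : Prop :=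
  (∀ v : ℕ → ZMod 3, (∃ u ∈ S₀, u % 3 = 1 ∧ v u ≠ 0) →
    2 ≤ (S₁.filter fun p => p % 3 = 1 ∧
      ∑ u ∈ S₀.filter (fun u => u % 3 = 1), v u * lam u p ≠ 0).card) ∧
  ∀ w : ℕ → ZMod 3, (∃ u ∈ S₀, w u ≠ 0) → ∃ p ∈ S₁, p % 3 = 1 ∧ ∑ u ∈ S₀, w u * lam p u ≠ 0

/-- CX-BOX: the count in a box. -/
def S_BOX : Prop := S_EQ → S_LA → ∀ (ι : Type) [Fintype ι] (J1 : Finset ι)
  (C : ι → Finset ℕ) (X : ι → ℕ) (κ : ℝ) (S₀ : Finset ℕ), 0 ≤ κ → (∀ i, (C i).card ≤ X i) →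
  HB J1 C X κ → (∀ u ∈ S₀, u.Prime ∧ u ≠ 3) →
  (∀ i, ∀ p ∈ C i, p.Prime ∧ p ∉ S₀ ∧ (i ∈ J1 → p % 3 = 1) ∧ (i ∉ J1 → p % 3 = 2)) →
  (∀ i l, i ≠ l → Disjoint (C i) (C l)) → J1.Nonempty →
  (S₀.filter fun p => p % 3 = 2).card + (univ \ J1).card = 1 →
  |(((Fintype.piFinset C).filter fun p => Nd S₀ (univ.image p) ∧ Gd (S₀ ∪ univ.image p)).card : ℝ) -
      c3 * (((Fintype.piFinset C).filter fun p => Nd S₀ (univ.image p)).card : ℝ)| ≤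
    2 * (3 ^ S₀.card / 3 ^ J1.card) *
      (((Fintype.piFinset C).filter fun p => Nd S₀ (univ.image p)).card : ℝ) +
    3 ^ (2 * S₀.card * Fintype.card ι + (prs J1).card) * (κ * ∏ j, (X j : ℝ))

/-- the small primes and the large primes of a set -/
noncomputable def sm (z : ℕ) (S : Finset ℕ) : Finset ℕ := S.filter fun p => p ≤ z

/-- the large primes of a set -/
noncomputable def la (z : ℕ) (S : Finset ℕ) : Finset ℕ := S.filter fun p => ¬ p ≤ z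

/-- the number of the block -/
noncomputable def jj (H p : ℕ) : ℕ := ⌊(H : ℝ) * Real.log p⌋₊

/-- the upper end of a block -/
noncomputable def XX (H k : ℕ) : ℕ := ⌊Real.exp ((k + 1) / H)⌋₊

/-- the regular sets -/
noncomputable def RR (X z H K V : ℕ) : Finset (Finset ℕ) :=
  (SS X).filter fun S => Set.InjOn (jj H) (la z S : Set ℕ) ∧ S.card ≤ K ∧
    (∏ p ∈ sm z S, p) * ∏ p ∈ la z S, XX H (jj H p) ≤ X ∧
    (sm z S).card + V < ((la z S).filter fun p => p % 3 = 1).card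

/-- CX-KEY: the sum over the boxes. -/
def S_KEY : Prop := LamP → S_BIL1 → S_BIL2 → S_EQ → S_LA → S_BOX → ∃ C : ℝ, 1 ≤ C ∧
  ∀ (X z H K V N : ℕ) (κ : ℝ), 1 ≤ X → 1 ≤ H → 1 ≤ z → 0 ≤ κ → C ≤ κ ^ 12 * z →
  (H : ℝ) * Real.log X < N →
  |(((RR X z H K V).filter fun S => Nd (sm z S) (la z S) ∧ Gd S).card : ℝ) -
      c3 * (((RR X z H K V).filter fun S => Nd (sm z S) (la z S)).card : ℝ)| ≤
    2 * (1 / 3 : ℝ) ^ V * ((RR X z H K V).card : ℝ) +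
    (9 * N + 9 : ℝ) ^ K * (3 ^ (3 * K ^ 2) * κ) * (X * (1 + Real.log X))

/-- CX-CNT: sets with many primes, sets near the boundary, sets with two primes in a block. -/
structure CntP : Prop where
  many : ∀ X K : ℕ, 1 ≤ X → (((SS X).filter fun S => K < S.card).card : ℝ) * 2 ^ K ≤
    X * (1 + Real.log X)
  cut : ∀ X z H K : ℕ, 1 ≤ X → 1 ≤ H → (((SS X).filter fun S => S.card ≤ K ∧
    X < (∏ p ∈ sm z S, p) * ∏ p ∈ la z S, XX H (jj H p)).card : ℝ) ≤ X * K / H + 1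
  coll : ∀ X z H : ℕ, 1 ≤ X → 1 ≤ H → (((SS X).filter fun S =>
    ¬ Set.InjOn (jj H) (la z S : Set ℕ)).card : ℝ) ≤ 4 * X * (1 + Real.log X) / H

/-- CX-SIE: the counting function of a family closed under subsets. -/
def S_SIE : Prop := ∃ C : ℝ, 1 ≤ C ∧ ∀ (Y : ℕ) (L : Finset (Finset ℕ)), 1 ≤ Y →
  (∀ S ∈ L, (∀ p ∈ S, p.Prime) ∧ ∏ p ∈ S, p ≤ Y) → (∀ S ∈ L, ∀ T, T ⊆ S → T ∈ L) →
  (L.card : ℝ) * Real.log Y ≤ C * Y * ∑ S ∈ L, (1 : ℝ) / ((∏ p ∈ S, p : ℕ) : ℝ)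

/-- the parameters -/
noncomputable def eL (X : ℕ) : ℝ := Real.log (Real.log X)

/-- the bound of the small primes -/
noncomputable def zz (X : ℕ) : ℕ := ⌊Real.exp ((eL X) ^ 3)⌋₊

/-- the bound for the number of primes -/
noncomputable def kk (X : ℕ) : ℕ := ⌈10 * eL X⌉₊

/-- the sets of primes `p ≡ 1` with all characters of the two factors equal to one -/
noncomputable def HD (A B : Ei) (T : ℕ) : Finset (Finset ℕ) :=
  (range (T + 1)).powerset.filter fun S => (∀ p ∈ S, p.Prime ∧ p % 3 = 1 ∧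
    xab A B (pp p) = 1 ∧ xab A B (star (pp p)) = 1) ∧ ∏ p ∈ S, p ≤ T

/-- CX-HAL: the logarithmic density for a nontrivial character. -/
def S_HAL : Prop := LamP → ∃ C : ℝ, 1 ≤ C ∧ ∀ (A B : Ei) (T : ℕ), PS A → PS B → A ≠ B → 2 ≤ T →
  ∑ S ∈ HD A B T, (1 : ℝ) / ((∏ p ∈ S, p : ℕ) : ℝ) ≤
    C * (lg (nrm A * nrm B)) ^ (1 / 6 : ℝ) * (Real.log T) ^ (1 / 3 : ℝ)

/-- CX-BAD: few sets have degenerate labels. -/
def S_BAD : Prop := LamP → S_SIE → S_HAL → ∃ (C : ℝ) (X₀ : ℕ), ∀ X : ℕ, X₀ ≤ X →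
  (((SS X).filter fun S => S.card ≤ kk X ∧ ¬ Nd (sm (zz X) S) (la (zz X) S)).card : ℝ) ≤
    C * X * (Real.log X) ^ (-(3 / 5) : ℝ)

/-- CX-FEW: few sets have few large primes. -/
def S_FEW : Prop := S_SIE → ∀ V : ℕ, ∃ (C : ℝ) (X₀ : ℕ), ∀ X : ℕ, X₀ ≤ X →
  (((SS X).filter fun S => ((la (zz X) S).filter fun p => p % 3 = 1).card ≤
    (sm (zz X) S).card + V).card : ℝ) ≤ C * X * (Real.log X) ^ (-(3 / 5) : ℝ)

/-- CX-MER: the primes `≡ 2` modulo `3`. -/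
def S_MER : Prop := ∃ C : ℝ, ∀ y : ℕ, 3 ≤ y →
  ∑ p ∈ (range (y + 1)).filter (fun p => p.Prime ∧ p % 3 = 2), (1 : ℝ) / p ≤
    1 / 2 * Real.log (Real.log y) + C

/-- CX-CHE: many primes in the classes `2` and `5` modulo `9`. -/
def S_CHE : Prop := ∃ (c : ℝ) (Y₀ : ℕ), 0 < c ∧ ∀ Y : ℕ, Y₀ ≤ Y → ∀ a : ℕ, (a = 2 ∨ a = 5) →
  c * Y / Real.log Y ≤ (((range (Y + 1)).filter fun p => p.Prime ∧ p % 9 = a).card : ℝ)

/-- CX-LOW: the lower bound for the size of the class. -/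
def S_LOW : Prop := S_MER → S_CHE → ∃ (c : ℝ) (X₀ : ℕ), 0 < c ∧ ∀ X : ℕ, X₀ ≤ X →
  c * X * (Real.log X) ^ (-(1 / 2) : ℝ) ≤ ((SS X).card : ℝ)

/-- CX-C3: the infinite product. -/
def S_C3 : Prop := (∀ n : ℕ, |∏ i ∈ range n, (1 - (1 / 3 : ℝ) ^ (i + 1)) - c3| ≤ (1 / 3 : ℝ) ^ n) ∧
  0 < c3 ∧ c3 < 1 ∧ 0.56 < c3

end Pool.Agent.Y703.CX
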